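import Pool.Agent.X245.FS.Defs
import Pool.Agent.X245.Util

/-!
# FEAS is in NP
-/

namespace Pool.Agent.X245.FS

open Pool.Agent.NPC

set_option autoImplicit false

/-- sortedness test -/
def sortedB (a : List ℕ) : Bool := (a.zip a.tail).all fun p => decide (p.2 ≤ p.1)

theorem sortedB_iff : ∀ a : List ℕ, sortedB a = true ↔ a.Pairwise (fun x y => y ≤ x) := by
  intro a
  rw [← List.isChain_iff_pairwise]
  induction a with
  | nil => simp [sortedB]
  | cons x l ih =>
    cases l with
    | nil => simp [sortedB]
    | cons y l =>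
      rw [List.isChain_cons_cons, ← ih]
      simp [sortedB]

/-- permutation test -/
def permB (l l' : List ℕ) : Bool :=
  (l ++ l').all fun x => decide ((l.filter fun y => decide (y = x)).length =
    (l'.filter fun y => decide (y = x)).length)

theorem permB_iff (l l' : List ℕ) : permB l l' = true ↔ l.Perm l' := by
  unfold permB
  rw [List.all_eq_true, List.perm_iff_count]
  have hc : ∀ (l : List ℕ) x, (l.filter fun y => decide (y = x)).length = l.count x := by
    intro l x
    rw [List.count_eq_length_filter]
    congr 1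
  constructor
  · intro h x
    by_cases hx : x ∈ l ++ l'
    · have := h x hx
      rw [decide_eq_true_eq, hc, hc] at this
      exact this
    · rw [List.mem_append, not_or] at hx
      rw [List.count_eq_zero_of_not_mem hx.1, List.count_eq_zero_of_not_mem hx.2]
  · intro h x _
    rw [decide_eq_true_eq, hc, hc]
    exact h x

/-- length -/
def DD (α : List (List ℕ)) : ℕ := (α.map List.length).sum

/-- validity test -/
def okB (α : List (List ℕ)) : Bool :=
  !α.isEmpty && α.all fun a => !a.isEmpty && ((a.all fun x => decide (0 < x)) &&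
    (sortedB a && decide (a.sum = DD α)))

/-- the check -/
def chk (x : List (List ℕ) × List ℕ) : Bool :=
  okB x.1 && (decide (x.2.length = DD x.1) && ((x.2.all fun c => decide (c < x.1.length)) &&
    ((List.range x.1.length).all fun i =>
      permB (distances (DD x.1) (positions x.2 i)) (x.1.getD i []))))

theorem chk_iff (α : List (List ℕ)) : FEAS α ↔ ∃ w, chk (α, w) = true := by
  unfold FEAS chk okB
  simp only [Bool.and_eq_true, decide_eq_true_eq, List.all_eq_true, Bool.not_eq_true',
    List.isEmpty_eq_false_iff, sortedB_iff, permB_iff, List.mem_range]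
  constructor
  · rintro ⟨h1, h2, w, h3, h4, h5⟩
    refine ⟨w, ⟨h1, fun a ha => ⟨(h2 a ha).1, (h2 a ha).2.1, (h2 a ha).2.2.1,
      (h2 a ha).2.2.2⟩⟩, h3, h4, fun i hi => ?_⟩
    rw [List.getD_eq_getElem _ _ hi]
    exact h5 i hi
  · rintro ⟨w, ⟨h1, h2⟩, h3, h4, h5⟩
    refine ⟨h1, fun a ha => ⟨(h2 a ha).1, (h2 a ha).2.1, (h2 a ha).2.2.1,
      (h2 a ha).2.2.2⟩, w, h3, h4, fun i hi => ?_⟩
    have := h5 i hi
    rwa [List.getD_eq_getElem _ _ hi] at this

variable {α : Type} [TEnc α]

theorem poly_sortedB {a : α → List ℕ} (ha : NPC.Poly a) : NPC.Poly (fun x => sortedB (a x)) := by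
  unfold sortedB
  fun_prop

theorem poly_permB {a b : α → List ℕ} (ha : NPC.Poly a) (hb : NPC.Poly b) :
    NPC.Poly (fun x => permB (a x) (b x)) := by
  unfold permB
  fun_prop

theorem poly_DD {a : α → List (List ℕ)} (ha : NPC.Poly a) : NPC.Poly (fun x => DD (a x)) := by
  unfold DD
  fun_prop

theorem poly_positions {w : α → List ℕ} {c : α → ℕ} (hw : NPC.Poly w) (hc : NPC.Poly c) :
    NPC.Poly (fun x => positions (w x) (c x)) := by
  unfold positions
  refine NPC.Poly.filter (l := fun x => List.range (w x).length)
    (p := fun x p => decide ((w x)[p]? = some (c x))) (UPoly.length hw).range ?_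
  fun_prop

theorem poly_distances {D : α → ℕ} {l : α → List ℕ} (hD : NPC.Poly D) (hl : NPC.Poly l) :
    NPC.Poly (fun x => distances (D x) (l x)) := by
  have h : NPC.Poly (fun x => ((l x).zip ((l x).tail ++ [(l x).getD 0 0 + D x])).map
      (fun p => p.2 - p.1)) := by fun_prop
  refine h.congr fun x => ?_
  unfold distances
  have h0 : (l x).headD 0 = (l x).getD 0 0 := by cases l x <;> rfl
  rw [h0, List.zip, List.map_zipWith]

theorem chk_poly : NPC.Poly chk := by
  have h1 : NPC.Poly (fun x : List (List ℕ) × List ℕ => okB x.1) := by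
    unfold okB
    have ha : NPC.Poly (fun p : (List (List ℕ) × List ℕ) × List ℕ => sortedB p.2) :=
      poly_sortedB (NPC.Poly.snd NPC.Poly.id)
    have hb : NPC.Poly (fun p : (List (List ℕ) × List ℕ) × List ℕ => DD p.1.1) :=
      poly_DD (by fun_prop)
    fun_prop
  have h2 : NPC.Poly (fun x : List (List ℕ) × List ℕ => DD x.1) := poly_DD (by fun_prop)
  have h3 : NPC.Poly (fun x : List (List ℕ) × List ℕ => (List.range x.1.length).all fun i =>
      permB (distances (DD x.1) (positions x.2 i)) (x.1.getD i [])) := by
    refine NPC.Poly.all (l := fun x : List (List ℕ) × List ℕ => List.range x.1.length)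
      (p := fun x i => permB (distances (DD x.1) (positions x.2 i)) (x.1.getD i []))
      (UPoly.length (NPC.Poly.fst NPC.Poly.id)).range ?_
    refine poly_permB (poly_distances (poly_DD (by fun_prop)) (poly_positions (by fun_prop)
      (by fun_prop))) (by fun_prop)
  unfold chk
  fun_prop

theorem sum_length_le (α : List (List ℕ)) : DD α ≤ sz α := by
  unfold DD
  induction α with
  | nil => simp
  | cons a α ih =>
    rw [List.map_cons, List.sum_cons, sz_list_cons]
    have := length_lt_sz a
    omega

theorem inNPP_FEAS : InNPP FEAS := by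
  refine inNPP_of (β := List ℕ) (R := chk) chk_poly
    (Polynomial.X * (Polynomial.C 8 * Polynomial.X + Polynomial.C 20) + Polynomial.C 1) ?_
  intro a
  rw [chk_iff]
  constructor
  · rintro ⟨w, h⟩
    refine ⟨w, ?_, h⟩
    unfold chk at h
    simp only [Bool.and_eq_true, decide_eq_true_eq, List.all_eq_true] at h
    obtain ⟨_, h1, h2, _⟩ := h
    have h3 := sum_length_le a
    have h4 := length_lt_sz a
    have hsz : ∀ v ∈ w, sz v ≤ 8 * sz a + 18 := by
      intro v hv
      have h3 := h2 v hv
      have h5 := sz_nat_le v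
      have h6 := Poly.size_le_self v
      omega
    have h7 := sz_le_length_mul w (8 * sz a + 18) hsz
    simp only [Polynomial.eval_add, Polynomial.eval_mul, Polynomial.eval_C, Polynomial.eval_X]
    have h8 : w.length ≤ sz a := by omega
    refine h7.trans ?_
    have h9 := Nat.mul_le_mul_right (8 * sz a + 18 + 2) h8
    nlinarith
  · rintro ⟨w, _, h⟩
    exact ⟨w, h⟩

end Pool.Agent.X245.FS
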