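import Pool.Agent.X245.FS.Defs

/-!
# From a packing to a sequence
-/

namespace Pool.Agent.X245.FS

set_option autoImplicit false

/-- the content of a bin -/
def cont (L : List ℕ) (h : List ℕ) : List ℕ := h.flatMap fun i => List.replicate (L.getD i 0) (i + 1)

/-- a bin -/
def chunk (L : List ℕ) (h : List ℕ) : List ℕ := 0 :: cont L h

theorem length_cont (L h : List ℕ) : (cont L h).length = (h.map fun i => L.getD i 0).sum := by
  unfold cont
  rw [List.length_flatMap]
  simp

theorem zero_notMem_cont (L h : List ℕ) : 0 ∉ cont L h := by
  unfold cont
  intro hm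
  obtain ⟨i, _, hi⟩ := List.mem_flatMap.1 hm
  have := List.eq_of_mem_replicate hi
  omega

theorem mem_cont {L h : List ℕ} {c : ℕ} (hc : c ∈ cont L h) : ∃ i ∈ h, c = i + 1 := by
  unfold cont at hc
  obtain ⟨i, hi, hi2⟩ := List.mem_flatMap.1 hc
  exact ⟨i, hi, List.eq_of_mem_replicate hi2⟩

theorem positions_chunk_zero (L h : List ℕ) : positions (chunk L h) 0 = [0] := by
  have h1 : chunk L h = [] ++ (List.replicate 1 0 ++ cont L h) := rfl
  rw [h1, positions_block (by simp) (zero_notMem_cont L h)]
  rfl

theorem positions_walls (L : List ℕ) (K : ℕ) : ∀ H : List (List ℕ),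
    (∀ h ∈ H, (chunk L h).length = K) →
    positions (H.flatMap (chunk L)) 0 = (List.range H.length).map (fun j => j * K) := by
  intro H
  induction H with
  | nil => intro _; rfl
  | cons h H ih =>
    intro hK
    rw [List.flatMap_cons, positions_append, positions_chunk_zero, hK h (by simp),
      ih (fun h' hh' => hK h' (by simp [hh'])), List.length_cons, List.range_succ_eq_map,
      List.map_cons, List.map_map, List.map_map]
    simp only [zero_mul, List.cons_append, List.nil_append, List.cons.injEq, true_and]
    refine List.map_congr_left fun j _ => ?_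
    simp only [Function.comp]
    rw [Nat.succ_eq_add_one]
    ring

theorem length_walls (L : List ℕ) (K : ℕ) : ∀ H : List (List ℕ),
    (∀ h ∈ H, (chunk L h).length = K) → (H.flatMap (chunk L)).length = H.length * K := by
  intro H
  induction H with
  | nil => intro _; simp
  | cons h H ih =>
    intro hK
    rw [List.flatMap_cons, List.length_append, hK h (by simp),
      ih (fun h' hh' => hK h' (by simp [hh'])), List.length_cons]
    ring

theorem distances_walls (M K : ℕ) (hM : 0 < M) :
    distances (M * K) ((List.range M).map (fun j => j * K)) = List.replicate M K := by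
  unfold distances
  refine List.ext_getElem ?_ ?_
  · simp
    omega
  · intro i h1 h2
    rw [List.length_replicate] at h2
    rw [List.getElem_zipWith, List.getElem_replicate, List.getElem_map, List.getElem_range]
    have hhd : ((List.range M).map (fun j => j * K)).headD 0 = 0 := by
      obtain ⟨m, rfl⟩ := Nat.exists_eq_succ_of_ne_zero hM.ne'
      rw [Nat.succ_eq_add_one, List.range_succ_eq_map]
      simp
    rw [List.getElem_append]
    split_ifs with h3
    · rw [List.getElem_tail, List.getElem_map, List.getElem_range]
      have : (i + 1) * K = i * K + K := by ring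
      omega
    · simp only [List.length_tail, List.length_map, List.length_range] at h3
      have hi : i = M - 1 := by omega
      simp only [hhd, List.getElem_singleton, zero_add]
      have : M * K = i * K + K := by
        rw [hi, ← Nat.succ_mul, Nat.succ_eq_add_one, Nat.sub_add_cancel hM]
      omega

theorem distances_block (D s a : ℕ) (ha : 0 < a) (haD : a ≤ D) :
    (distances D ((List.range a).map (fun p => s + p))).Perm
      ((D - a + 1) :: List.replicate (a - 1) 1) := by
  have h : distances D ((List.range a).map (fun p => s + p)) =
      List.replicate (a - 1) 1 ++ [D - a + 1] := by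
    unfold distances
    refine List.ext_getElem ?_ ?_
    · simp
      omega
    · intro i h1 h2
      have h2' : i < a := by simp at h2; omega
      rw [List.getElem_zipWith, List.getElem_map, List.getElem_range]
      have hhd : ((List.range a).map (fun p => s + p)).headD 0 = s := by
        obtain ⟨m, rfl⟩ := Nat.exists_eq_succ_of_ne_zero ha.ne'
        rw [Nat.succ_eq_add_one, List.range_succ_eq_map]
        simp
      rw [List.getElem_append, List.getElem_append]
      split_ifs with h3 h4 h5
      · rw [List.getElem_tail, List.getElem_map, List.getElem_range, List.getElem_replicate]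
        omega
      · simp at h3 h4; omega
      · simp at h3 h5; omega
      · simp only [List.length_tail, List.length_map, List.length_range] at h3
        simp only [hhd, List.getElem_singleton]
        omega
  rw [h]
  exact List.perm_append_comm.trans (List.Perm.refl _)

theorem sum_lengths (L : List ℕ) (M B : ℕ) (hpos : ∀ a ∈ L, 0 < a) :
    ((finst L M B).map List.length).sum = M + L.sum := by
  unfold finst
  rw [List.map_cons, List.sum_cons, List.length_replicate, List.map_map]
  congr 1
  have : (L.map (List.length ∘ fun a => (M * (B + 1) - a + 1) :: List.replicate (a - 1) 1)) =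
      L.map id := by
    refine List.map_congr_left fun a ha => ?_
    have := hpos a ha
    simp only [Function.comp, List.length_cons, List.length_replicate, id]
    omega
  rw [this, List.map_id]

theorem feas_of_pack (L : List ℕ) (M B : ℕ) (hM : 0 < M) (hpos : ∀ a ∈ L, 0 < a)
    (h : Pack L M B) : FEAS (finst L M B) := by
  obtain ⟨G, hG1, hG2, hG3⟩ := h
  have hL : L = (List.range L.length).map (fun i => L.getD i 0) := by
    refine List.ext_getElem (by simp) fun i h1 h2 => ?_
    simp [h1]
  rw [hL] at hG2
  obtain ⟨H, hH1, hH2⟩ := lift _ G _ hG2
  have hlen : H.length = M := by rw [← hG1, ← hH2, List.length_map]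
  have hK : ∀ h ∈ H, (chunk L h).length = B + 1 := by
    intro h hh
    unfold chunk
    rw [List.length_cons, length_cont]
    congr 1
    exact hG3 _ (by rw [← hH2]; exact List.mem_map_of_mem hh)
  have hnd : H.flatten.Nodup := hH1.nodup_iff.2 List.nodup_range
  have hsum : L.sum = M * B := by
    have h1 : G.flatten.sum = L.sum := by
      rw [hG2.sum_eq, ← hL]
    rw [← h1, List.sum_flatten]
    have h2 : G.map List.sum = List.replicate M B := by
      rw [List.eq_replicate_iff]
      refine ⟨by rw [List.length_map, hG1], ?_⟩
      intro x hx
      obtain ⟨g, hg, rfl⟩ := List.mem_map.1 hx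
      exact hG3 g hg
    rw [h2, List.sum_replicate, smul_eq_mul]
  have hD : ((finst L M B).map List.length).sum = M * (B + 1) := by
    rw [sum_lengths L M B hpos, hsum]; ring
  have hle : ∀ i < L.length, L.getD i 0 ≤ M * (B + 1) := by
    intro i hi
    have h1 : L.getD i 0 ≤ L.sum := by
      rw [List.getD_eq_getElem _ _ hi]
      exact List.single_le_sum (fun _ _ => Nat.zero_le _) _ (List.getElem_mem hi)
    have h2 : M * (B + 1) = M * B + M := by ring
    omega
  refine ⟨by unfold finst; simp, ?_, H.flatMap (chunk L), ?_, ?_, ?_⟩
  · intro a ha
    rw [hD]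
    unfold finst at ha
    rcases List.mem_cons.1 ha with rfl | ha
    · refine ⟨?_, ?_, ?_, ?_⟩
      · rw [Ne, List.replicate_eq_nil_iff]; omega
      · intro x hx; rw [List.eq_of_mem_replicate hx]; omega
      · exact List.pairwise_replicate.2 (Or.inr le_rfl)
      · rw [List.sum_replicate, smul_eq_mul]
    · obtain ⟨b, hb, rfl⟩ := List.mem_map.1 ha
      have hb0 := hpos b hb
      obtain ⟨i, hi, rfl⟩ := List.getElem_of_mem hb
      have hb1 := hle i hi
      rw [List.getD_eq_getElem _ _ hi] at hb1
      refine ⟨by simp, ?_, ?_, ?_⟩
      · intro x hx
        rcases List.mem_cons.1 hx with rfl | hx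
        · omega
        · rw [List.eq_of_mem_replicate hx]; omega
      · rw [List.pairwise_cons]
        refine ⟨?_, List.pairwise_replicate.2 (Or.inr le_rfl)⟩
        intro x hx
        rw [List.eq_of_mem_replicate hx]; omega
      · rw [List.sum_cons, List.sum_replicate, smul_eq_mul]
        omega
  · rw [hD, length_walls L (B + 1) H hK, hlen]
  · intro c hc
    obtain ⟨h, hh, hc⟩ := List.mem_flatMap.1 hc
    have hfl : (finst L M B).length = L.length + 1 := by unfold finst; simp
    rw [hfl]
    unfold chunk at hc
    rcases List.mem_cons.1 hc with rfl | hc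
    · omega
    · obtain ⟨i, hi, rfl⟩ := mem_cont hc
      have : i ∈ H.flatten := List.mem_flatten.2 ⟨h, hh, hi⟩
      have := List.mem_range.1 (hH1.mem_iff.1 this)
      omega
  · intro c hc
    rw [hD]
    cases c with
    | zero =>
      rw [positions_walls L (B + 1) H hK, hlen, distances_walls M (B + 1) hM]
      unfold finst
      rfl
    | succ i =>
      have hi : i < L.length := by
        unfold finst at hc
        simp at hc
        exact hc
      have hget : (finst L M B)[i + 1] =
          (M * (B + 1) - L.getD i 0 + 1) :: List.replicate (L.getD i 0 - 1) 1 := by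
        unfold finst
        rw [List.getElem_cons_succ, List.getElem_map, List.getD_eq_getElem _ _ hi]
      rw [hget]
      have hiH : i ∈ H.flatten := hH1.mem_iff.2 (List.mem_range.2 hi)
      obtain ⟨h, hh, hih⟩ := List.mem_flatten.1 hiH
      obtain ⟨H1, H2, rfl⟩ := List.append_of_mem hh
      obtain ⟨h1, h2, rfl⟩ := List.append_of_mem hih
      rw [List.flatten_append, List.flatten_cons] at hnd
      have hA : i ∉ H1.flatten := by
        intro hm
        exact (List.nodup_append.1 hnd).2.2 i hm i (by simp) rfl
      have hnd2 := (List.nodup_append.1 hnd).2.1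
      have hC : i ∉ H2.flatten := by
        intro hm
        exact (List.nodup_append.1 hnd2).2.2 i (by simp) i hm rfl
      have hnd3 := (List.nodup_append.1 hnd2).1
      have hA' : i ∉ h1 := by
        intro hm
        exact (List.nodup_append.1 hnd3).2.2 i hm i (by simp) rfl
      have hC' : i ∉ h2 := (List.nodup_cons.1 (List.nodup_append.1 hnd3).2.1).1
      have hout : ∀ H' : List (List ℕ), i ∉ H'.flatten → i + 1 ∉ H'.flatMap (chunk L) := by
        intro H' hH' hm
        obtain ⟨g, hg, hm⟩ := List.mem_flatMap.1 hm
        unfold chunk at hm
        rcases List.mem_cons.1 hm with hm | hm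
        · omega
        · obtain ⟨j, hj, hij⟩ := mem_cont hm
          have : j = i := by omega
          rw [this] at hj
          exact hH' (List.mem_flatten.2 ⟨g, hg, hj⟩)
      have hout' : ∀ h' : List ℕ, i ∉ h' → i + 1 ∉ cont L h' := by
        intro h' hh' hm
        obtain ⟨j, hj, hij⟩ := mem_cont hm
        have : j = i := by omega
        rw [this] at hj
        exact hh' hj
      have hdec : (H1 ++ (h1 ++ i :: h2) :: H2).flatMap (chunk L) =
          (H1.flatMap (chunk L) ++ 0 :: cont L h1) ++
            (List.replicate (L.getD i 0) (i + 1) ++ (cont L h2 ++ H2.flatMap (chunk L))) := by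
        rw [List.flatMap_append, List.flatMap_cons]
        unfold chunk cont
        rw [List.flatMap_append, List.flatMap_cons]
        simp [List.append_assoc]
      rw [hdec, positions_block]
      · refine distances_block _ _ _ ?_ (hle i hi)
        rw [List.getD_eq_getElem _ _ hi]
        exact hpos _ (List.getElem_mem hi)
      · rw [List.mem_append, List.mem_cons]
        rintro (hm | hm | hm)
        · exact hout H1 hA hm
        · omega
        · exact hout' h1 hA' hm
      · rw [List.mem_append]
        rintro (hm | hm)
        · exact hout' h2 hC' hm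
        · exact hout H2 hC hm

end Pool.Agent.X245.FS
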