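import Mathlib

/-!
# Feasibility of prescribed cyclic distances in just-in-time sequences: definitions
-/

namespace Pool.Agent.X245.FS

set_option autoImplicit false

/-- The positions (counted from `0`) of the letter `c` in the word `w`, in increasing order. -/
def positions (w : List ℕ) (c : ℕ) : List ℕ :=
  (List.range w.length).filter fun p => decide (w[p]? = some c)

/-- The cyclic distances of a list of positions `p₁ < ⋯ < p_d` in a word of length `D`:
`p₂ - p₁, …, p_d - p_{d-1}` and the wrap-around distance `p₁ + D - p_d`. -/
def distances (D : ℕ) (l : List ℕ) : List ℕ :=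
  List.zipWith (fun a b => b - a) l (l.tail ++ [l.headD 0 + D])

/-- The decision problem `FEAS`. The letters are `0, …, n - 1`, where `n` is the length of the
input `α`, and `α[i]` is the prescribed distance vector of the letter `i`; so the letter `i` has to
occur `(α[i]).length` times, and `D` is the sum of these lengths. The vectors have to be
decomposition vectors of `D`. -/
def FEAS (α : List (List ℕ)) : Prop :=
  α ≠ [] ∧
  (∀ a ∈ α, a ≠ [] ∧ (∀ x ∈ a, 0 < x) ∧ a.Pairwise (fun x y => y ≤ x) ∧
    a.sum = (α.map List.length).sum) ∧
  ∃ w : List ℕ, w.length = (α.map List.length).sum ∧ (∀ c ∈ w, c < α.length) ∧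
    ∀ i (h : i < α.length), (distances (α.map List.length).sum (positions w i)).Perm α[i]

/-- Exact bin packing: can the numbers in `L` be distributed to `M` bins of size `B` such that
all the bins are exactly full? -/
def Pack (L : List ℕ) (M B : ℕ) : Prop :=
  ∃ G : List (List ℕ), G.length = M ∧ G.flatten.Perm L ∧ ∀ g ∈ G, g.sum = B

/-- The instance made of a bin packing instance: a letter of bin walls, and one letter for each
number, which has to fill an interval. -/
def finst (L : List ℕ) (M B : ℕ) : List (List ℕ) :=
  List.replicate M (B + 1) ::
    L.map fun a => (M * (B + 1) - a + 1) :: List.replicate (a - 1) 1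

/-! ### Lifting -/

theorem perm_map_lift {α β : Type} (g : α → β) : ∀ (l1 : List β) (l2 : List α),
    l1.Perm (l2.map g) → ∃ l' : List α, l'.Perm l2 ∧ l'.map g = l1 := by
  intro l1
  induction l1 with
  | nil =>
    intro l2 h
    have := h.length_eq
    rw [List.length_nil, List.length_map] at this
    have h2 : l2 = [] := List.length_eq_zero_iff.1 this.symm
    exact ⟨[], by rw [h2], rfl⟩
  | cons x t ih =>
    intro l2 h
    have hx : x ∈ l2.map g := h.mem_iff.1 (List.mem_cons_self ..)
    obtain ⟨y, hy, rfl⟩ := List.mem_map.1 hx
    obtain ⟨s, r, rfl⟩ := List.append_of_mem hy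
    have h1 : ((s ++ y :: r).map g).Perm (g y :: (s ++ r).map g) := by
      have := (List.perm_middle (a := y) (l₁ := s) (l₂ := r)).map g
      simpa using this
    have h2 := (h.trans h1).cons_inv
    obtain ⟨l', h3, h4⟩ := ih _ h2
    refine ⟨y :: l', (h3.cons y).trans (List.perm_middle (a := y) (l₁ := s) (l₂ := r)).symm, ?_⟩
    rw [List.map_cons, h4]

theorem flatten_lift {α β : Type} (g : α → β) : ∀ (G : List (List β)) (l : List α),
    l.map g = G.flatten → ∃ H : List (List α), H.flatten = l ∧ H.map (List.map g) = G := by
  intro G
  induction G with
  | nil =>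
    intro l h
    have : l = [] := by
      rw [List.flatten_nil] at h
      exact List.map_eq_nil_iff.1 h
    exact ⟨[], by rw [this]; rfl, rfl⟩
  | cons a G ih =>
    intro l h
    rw [List.flatten_cons] at h
    obtain ⟨l1, l2, rfl, h1, h2⟩ := List.map_eq_append_iff.1 h
    obtain ⟨H, h3, h4⟩ := ih l2 h2
    exact ⟨l1 :: H, by rw [List.flatten_cons, h3], by rw [List.map_cons, h1, h4]⟩

theorem lift {α β : Type} (g : α → β) (G : List (List β)) (l : List α)
    (h : G.flatten.Perm (l.map g)) :
    ∃ H : List (List α), H.flatten.Perm l ∧ H.map (List.map g) = G := by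
  obtain ⟨l', h1, h2⟩ := perm_map_lift g _ _ h
  obtain ⟨H, h3, h4⟩ := flatten_lift g G l' h2
  exact ⟨H, by rw [h3]; exact h1, h4⟩

/-! ### Positions -/

theorem mem_positions {w : List ℕ} {c p : ℕ} : p ∈ positions w c ↔ w[p]? = some c := by
  unfold positions
  rw [List.mem_filter, List.mem_range, decide_eq_true_eq]
  constructor
  · exact fun h => h.2
  · intro h
    refine ⟨?_, h⟩
    by_contra hcon
    rw [List.getElem?_eq_none (by omega)] at h
    simp at h

theorem positions_append (u v : List ℕ) (c : ℕ) :
    positions (u ++ v) c = positions u c ++ (positions v c).map (fun p => u.length + p) := by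
  unfold positions
  rw [List.length_append, List.range_add, List.filter_append, List.filter_map]
  congr 1
  · refine List.filter_congr fun p hp => ?_
    rw [List.getElem?_append_left (List.mem_range.1 hp)]
  · congr 1
    refine List.filter_congr fun p hp => ?_
    simp only [Function.comp]
    rw [List.getElem?_append_right (by omega)]
    simp

theorem positions_nil_of {w : List ℕ} {c : ℕ} (h : c ∉ w) : positions w c = [] := by
  rw [List.eq_nil_iff_forall_not_mem]
  intro p hp
  rw [mem_positions] at hp
  exact h (List.mem_of_getElem? hp)

theorem positions_replicate (a c : ℕ) : positions (List.replicate a c) c = List.range a := by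
  unfold positions
  rw [List.length_replicate, List.filter_eq_self]
  intro p hp
  rw [decide_eq_true_eq, List.getElem?_replicate, if_pos (List.mem_range.1 hp)]

theorem positions_block {u v : List ℕ} {a c : ℕ} (hu : c ∉ u) (hv : c ∉ v) :
    positions (u ++ (List.replicate a c ++ v)) c =
      (List.range a).map (fun p => u.length + p) := by
  rw [positions_append, positions_append, positions_nil_of hu, positions_nil_of hv,
    positions_replicate]
  simp

theorem length_positions (w : List ℕ) (c : ℕ) :
    (positions w c).length = ((Finset.range w.length).filter fun p => w[p]? = some c).card := by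
  unfold positions
  rw [← List.toFinset_card_of_nodup ((List.nodup_range).filter _)]
  congr 1
  ext p
  simp

end Pool.Agent.X245.FS
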