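import Pool.Agent.X245.FS.Defs

/-!
# From a sequence to a packing
-/

namespace Pool.Agent.X245.FS

set_option autoImplicit false

open Finset

/-- number of changes of `g` along a walk -/
def pc (g : ℕ → ℕ) : ℕ → List ℕ → ℕ → ℕ
  | x, [], e => if g x = g e then 0 else 1
  | x, y :: t, e => (if g x = g y then 0 else 1) + pc g y t e

theorem pc_one (g : ℕ → ℕ) (x e : ℕ) (t : List ℕ) (h : g x ≠ g e) : 1 ≤ pc g x t e := by
  induction t generalizing x with
  | nil => simp [pc, h]
  | cons y t ih =>
    unfold pc
    by_cases h1 : g x = g y
    · have := ih y (by rwa [← h1])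
      omega
    · rw [if_neg h1]; omega

theorem pc_two (g : ℕ → ℕ) (x e z : ℕ) (t : List ℕ) (hz : z ∈ t) (h : g z ≠ g x)
    (he : g e = g x) : 2 ≤ pc g x t e := by
  induction t generalizing x with
  | nil => simp at hz
  | cons y t ih =>
    unfold pc
    by_cases h1 : g x = g y
    · rcases List.mem_cons.1 hz with rfl | hz
      · exact absurd h1.symm h
      · have := ih y hz (by rwa [← h1]) (by rw [he, h1])
        omega
    · rw [if_neg h1]
      have := pc_one g y e t (by rw [he]; exact fun h2 => h1 h2.symm)
      omega

/-- The number of changes is at most the number of distances that are not `1`, if there is no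
change at a distance one. -/
theorem pc_le (g : ℕ → ℕ) (x e : ℕ) (t : List ℕ)
    (h : ∀ q ∈ List.zip (x :: t) (t ++ [e]), q.2 - q.1 = 1 → g q.1 = g q.2) :
    pc g x t e ≤ (List.zipWith (fun a b => b - a) (x :: t) (t ++ [e])).countP
      (fun d => decide (d ≠ 1)) := by
  induction t generalizing x with
  | nil =>
    have := h (x, e) (by simp)
    simp only [pc, List.nil_append, List.zipWith_cons_cons, List.zipWith_nil_left]
    by_cases h1 : e - x = 1
    · rw [if_pos (this h1)]; omega
    · rw [List.countP_cons, if_pos (show (decide (e - x ≠ 1)) = true by simpa using h1)]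
      split_ifs <;> omega
  | cons y t ih =>
    have h0 := h (x, y) (by simp)
    have h1 := ih y (fun q hq => h q (by
      rw [List.cons_append, List.zip_cons_cons]
      exact List.mem_cons_of_mem _ hq))
    rw [List.cons_append, List.zipWith_cons_cons, List.countP_cons]
    unfold pc
    by_cases h2 : y - x = 1
    · rw [if_pos (h0 h2)]; omega
    · rw [if_pos (show (decide (y - x ≠ 1)) = true by simpa using h2)]
      split_ifs <;> omega

theorem arith_seq (K : ℕ) (hK : 0 < K) (e : ℕ) : ∀ (t : List ℕ) (p : ℕ),
    (∀ d ∈ List.zipWith (fun a b => b - a) (p :: t) (t ++ [e]), d = K) →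
    p :: t = (List.range (t.length + 1)).map (fun j => p + j * K) ∧
      e = p + (t.length + 1) * K := by
  intro t
  induction t with
  | nil =>
    intro p h
    have := h (e - p) (by simp)
    refine ⟨by simp, ?_⟩
    simp only [List.length_nil, zero_add, one_mul]
    omega
  | cons q t ih =>
    intro p h
    rw [List.cons_append, List.zipWith_cons_cons] at h
    have h1 := h (q - p) (List.mem_cons_self ..)
    obtain ⟨h2, h3⟩ := ih q (fun d hd => h d (List.mem_cons_of_mem _ hd))
    have hq : q = p + K := by omega
    constructor
    · rw [List.length_cons, h2, List.range_succ_eq_map (n := t.length + 1), List.map_cons,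
        List.map_map]
      simp only [zero_mul, add_zero, List.cons.injEq, true_and]
      refine List.map_congr_left fun j _ => ?_
      simp only [Function.comp]
      rw [hq, Nat.succ_eq_add_one]; ring
    · rw [h3, List.length_cons, hq]; ring

theorem card_bins (M K j : ℕ) (hj : j < M) (hK : 0 < K) :
    ((range (M * K)).filter fun u => u % K ≠ 0 ∧ u / K = j).card = K - 1 := by
  have h : (range (M * K)).filter (fun u => u % K ≠ 0 ∧ u / K = j) =
      (Ico 1 K).image (fun r => j * K + r) := by
    ext u
    rw [mem_filter, mem_range, mem_image]
    constructor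
    · rintro ⟨_, h1, h2⟩
      refine ⟨u % K, mem_Ico.2 ⟨by omega, Nat.mod_lt _ hK⟩, ?_⟩
      have := Nat.div_add_mod u K
      rw [h2] at this
      rw [mul_comm]; exact this
    · rintro ⟨r, hr, rfl⟩
      rw [mem_Ico] at hr
      have h1 : (j * K + r) % K = r := by
        rw [mul_comm, Nat.mul_add_mod, Nat.mod_eq_of_lt hr.2]
      have h2 : (j * K + r) / K = j := by
        rw [mul_comm, Nat.mul_add_div hK, Nat.div_eq_of_lt hr.2, add_zero]
      refine ⟨?_, by rw [h1]; omega, h2⟩
      have h3 : (j + 1) * K ≤ M * K := Nat.mul_le_mul_right _ hj
      have h4 : (j + 1) * K = j * K + K := by ring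
      omega
  rw [h, card_image_of_injective _ (fun a b hab => by simpa using hab), Nat.card_Ico]

theorem pack_of_feas (L : List ℕ) (M B : ℕ) (hM : 0 < M) (hpos : ∀ a ∈ L, 0 < a)
    (hD : ((finst L M B).map List.length).sum = M * (B + 1)) (h : FEAS (finst L M B)) :
    Pack L M B := by
  classical
  obtain ⟨-, -, w, hw1, hw2, hw3⟩ := h
  rw [hD] at hw1 hw3
  set K := B + 1 with hKd
  have hK : 0 < K := by omega
  set D := M * K with hDd
  have hD0 : 0 < D := Nat.mul_pos hM hK
  have hfl : (finst L M B).length = L.length + 1 := by unfold finst; simp
  -- the walls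
  have hwalls : ∃ p < K, ∀ x, w[x]? = some 0 ↔ ∃ j < M, x = p + j * K := by
    have h0 : (distances D (positions w 0)).Perm (List.replicate M K) := by
      have := hw3 0 (by omega)
      unfold finst at this
      exact this
    have hlen0 : (positions w 0).length = M := by
      have := h0.length_eq
      unfold distances at this
      rw [List.length_zipWith, List.length_append, List.length_tail, List.length_replicate,
        List.length_singleton] at this
      omega
    cases hp : positions w 0 with
    | nil => rw [hp] at hlen0; simp at hlen0; omega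
    | cons p t =>
      rw [hp] at h0 hlen0
      unfold distances at h0
      simp only [List.tail_cons, List.headD_cons] at h0
      obtain ⟨h1, h2⟩ := arith_seq K hK (p + D) t p (fun d hd =>
        List.eq_of_mem_replicate (h0.mem_iff.1 hd))
      rw [List.length_cons] at hlen0
      rw [hlen0] at h1
      refine ⟨p, ?_, ?_⟩
      · have h3 : p + (M - 1) * K ∈ positions w 0 := by
          rw [hp, h1, List.mem_map]
          exact ⟨M - 1, List.mem_range.2 (by omega), rfl⟩
        rw [mem_positions] at h3
        have h4 : p + (M - 1) * K < w.length := by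
          by_contra hcon
          rw [List.getElem?_eq_none (by omega)] at h3
          simp at h3
        rw [hw1, hDd] at h4
        have h5 : M * K = (M - 1) * K + K := by
          rw [← Nat.succ_mul, Nat.succ_eq_add_one, Nat.sub_add_cancel hM]
        omega
      · intro x
        rw [← mem_positions, hp, h1, List.mem_map]
        constructor
        · rintro ⟨j, hj, rfl⟩; exact ⟨j, List.mem_range.1 hj, rfl⟩
        · rintro ⟨j, hj, rfl⟩; exact ⟨j, List.mem_range.2 hj, rfl⟩
  obtain ⟨p, hpK, hwall⟩ := hwalls
  have hKD : K ∣ D := ⟨M, by rw [hDd, mul_comm]⟩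
  have hKleD : K ≤ D := Nat.le_of_dvd hD0 hKD
  -- the shift
  set φ : ℕ → ℕ := fun x => (x + (D - p)) % D with hφ
  have hφ0 : ∀ x < D, (φ x % K = 0 ↔ w[x]? = some 0) := by
    intro x hx
    rw [hwall]
    simp only [hφ]
    rw [Nat.mod_mod_of_dvd _ hKD]
    constructor
    · intro h1
      obtain ⟨t, ht⟩ := Nat.dvd_of_mod_eq_zero h1
      -- x + D - p = K t
      have ht2 : x + D = p + t * K := by rw [mul_comm] at ht; omega
      have htM : M ≤ t := by
        by_contra hcon
        have : (t + 1) * K ≤ M * K := Nat.mul_le_mul_right _ (by omega)
        have e : (t + 1) * K = t * K + K := by ring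
        omega
      obtain ⟨j, rfl⟩ := Nat.exists_eq_add_of_le htM
      have e : (M + j) * K = D + j * K := by rw [hDd]; ring
      refine ⟨j, ?_, by omega⟩
      by_contra hcon
      have : M * K ≤ j * K := Nat.mul_le_mul_right _ (by omega)
      omega
    · rintro ⟨j, hj, rfl⟩
      have e : p + j * K + (D - p) = (j + M) * K := by
        have : (j + M) * K = j * K + D := by rw [hDd]; ring
        omega
      rw [e, Nat.mul_mod_left]
  have hφD : ∀ x, φ (x + D) = φ x := by
    intro x
    simp only [hφ]
    have : x + D + (D - p) = x + (D - p) + D := by omega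
    rw [this, Nat.add_mod_right]
  set β : ℕ → ℕ := fun x => φ x / K with hβ
  have hβD : ∀ x, β (x + D) = β x := fun x => by simp only [hβ, hφD]
  have hβM : ∀ x, β x < M := by
    intro x
    simp only [hβ]
    rw [Nat.div_lt_iff_lt_mul hK]
    exact Nat.mod_lt _ hD0
  have hstep : ∀ x, φ x % K ≠ 0 → φ (x + 1) % K ≠ 0 → β (x + 1) = β x := by
    intro x h1 h2
    have e : φ (x + 1) = (φ x + 1) % D := by
      simp only [hφ]
      rw [Nat.mod_add_mod]
      congr 1
      omega
    have hlt : φ x < D := Nat.mod_lt _ hD0
    have h3 : φ x + 1 < D := by
      by_contra hcon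
      have : φ x + 1 = D := by omega
      rw [e, this, Nat.mod_self] at h2
      simp at h2
    rw [Nat.mod_eq_of_lt h3] at e
    simp only [hβ]
    rw [e] at h2 ⊢
    rw [Nat.succ_div, if_neg (fun hd => h2 (Nat.mod_eq_zero_of_dvd hd)), add_zero]
  -- the blocks
  have hblock : ∀ i < L.length, ∃ x0, w[x0]? = some (i + 1) ∧
      ∀ x, w[x]? = some (i + 1) → β x = β x0 := by
    intro i hi
    have h0 : (distances D (positions w (i + 1))).Perm
        ((D - L[i] + 1) :: List.replicate (L[i] - 1) 1) := by
      have := hw3 (i + 1) (by omega)
      unfold finst at this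
      rw [List.getElem_cons_succ, List.getElem_map] at this
      exact this
    cases hp : positions w (i + 1) with
    | nil =>
      rw [hp] at h0
      have := h0.length_eq
      simp [distances] at this
    | cons x0 t =>
      rw [hp] at h0
      unfold distances at h0
      simp only [List.tail_cons, List.headD_cons] at h0
      have hmem : ∀ x, x ∈ x0 :: t ↔ w[x]? = some (i + 1) := by
        intro x; rw [← hp, mem_positions]
      have hlt : ∀ x, w[x]? = some (i + 1) → x < D ∧ φ x % K ≠ 0 := by
        intro x hx
        have h1 : x < D := by
          by_contra hcon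
          rw [List.getElem?_eq_none (by omega)] at hx
          simp at hx
        refine ⟨h1, ?_⟩
        rw [Ne, hφ0 x h1, hx]
        simp
      have hcnt : (List.zipWith (fun a b => b - a) (x0 :: t) (t ++ [x0 + D])).countP
          (fun d => decide (d ≠ 1)) ≤ 1 := by
        rw [h0.countP_eq, List.countP_cons]
        have : (List.replicate (L[i] - 1) 1).countP (fun d => decide (d ≠ 1)) = 0 := by
          rw [List.countP_eq_zero]
          intro a ha
          rw [List.eq_of_mem_replicate ha]
          simp
        rw [this]
        split_ifs <;> omega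
      have hpc := pc_le β x0 (x0 + D) t (by
        intro q hq h1
        obtain ⟨hq1, hq2⟩ := List.of_mem_zip hq
        have ha := hlt _ ((hmem _).1 hq1)
        have hb : φ q.2 % K ≠ 0 := by
          rcases List.mem_append.1 hq2 with h2 | h2
          · exact (hlt _ ((hmem _).1 (List.mem_cons_of_mem _ h2))).2
          · rw [List.mem_singleton.1 h2, hφD]
            exact (hlt _ ((hmem _).1 (List.mem_cons_self ..))).2
        have he : q.2 = q.1 + 1 := by omega
        rw [he] at hb ⊢
        exact (hstep _ ha.2 hb).symm)
      refine ⟨x0, (hmem _).1 (List.mem_cons_self ..), ?_⟩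
      intro x hx
      rcases List.mem_cons.1 ((hmem x).2 hx) with h1 | h1
      · rw [h1]
      · by_contra hcon
        have := pc_two β x0 (x0 + D) x t h1 hcon (hβD _)
        omega
  choose! x0 hx0 hx1 using hblock
  refine ⟨(List.range M).map (fun j => ((List.range L.length).filter
    (fun i => decide (β (x0 i) = j))).map (fun i => L.getD i 0)), by simp, ?_, ?_⟩
  · have h1 : ((List.range M).map (fun j => ((List.range L.length).filter
        (fun i => decide (β (x0 i) = j))).map (fun i => L.getD i 0))).flatten =
        ((List.range M).flatMap (fun j => (List.range L.length).filter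
          (fun i => decide (β (x0 i) = j)))).map (fun i => L.getD i 0) := by
      rw [List.map_flatMap, List.flatMap_def]
    rw [h1]
    have h2 : ((List.range M).flatMap (fun j => (List.range L.length).filter
          (fun i => decide (β (x0 i) = j)))).Perm (List.range L.length) := by
      rw [List.perm_ext_iff_of_nodup]
      · intro i
        rw [List.mem_flatMap]
        constructor
        · rintro ⟨j, _, hi⟩
          exact (List.mem_filter.1 hi).1
        · intro hi
          exact ⟨β (x0 i), List.mem_range.2 (hβM _), List.mem_filter.2 ⟨hi, by simp⟩⟩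
      · rw [List.nodup_flatMap]
        refine ⟨fun j _ => List.nodup_range.filter _, ?_⟩
        refine (List.nodup_range (n := M)).imp_of_mem ?_
        intro a b _ _ hab
        rw [Function.onFun, List.disjoint_left]
        intro i hi1 hi2
        rw [List.mem_filter, decide_eq_true_eq] at hi1 hi2
        exact hab (hi1.2.symm.trans hi2.2)
      · exact List.nodup_range
    refine (h2.map _).trans ?_
    have h3 : (List.range L.length).map (fun i => L.getD i 0) = L := by
      refine List.ext_getElem (by simp) fun i h1 h2 => ?_
      simp [h2]
    rw [h3]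
  · intro g hg
    obtain ⟨j, hj, rfl⟩ := List.mem_map.1 hg
    have hj := List.mem_range.1 hj
    have h1 : (((List.range L.length).filter (fun i => decide (β (x0 i) = j))).map
        (fun i => L.getD i 0)).sum =
        ∑ i ∈ (range L.length).filter (fun i => β (x0 i) = j), L.getD i 0 := by
      rw [← List.sum_toFinset _ (List.nodup_range.filter _)]
      refine sum_congr ?_ fun _ _ => rfl
      ext i; simp
    rw [h1]
    have h2 : ∀ i ∈ (range L.length).filter (fun i => β (x0 i) = j),
        L.getD i 0 = (((range D).filter (fun x => w[x]? ≠ some 0 ∧ β x = j)).filter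
          (fun x => w.getD x 0 - 1 = i)).card := by
      intro i hi
      rw [mem_filter, mem_range] at hi
      have h3 : (positions w (i + 1)).length = L.getD i 0 := by
        have h4 := (hw3 (i + 1) (by omega)).length_eq
        unfold finst at h4
        rw [List.getElem_cons_succ, List.getElem_map, List.length_cons,
          List.length_replicate] at h4
        unfold distances at h4
        rw [List.length_zipWith, List.length_append, List.length_tail,
          List.length_singleton] at h4
        have h5 := hpos _ (List.getElem_mem hi.1)
        rw [List.getD_eq_getElem _ _ hi.1]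
        omega
      rw [← h3, length_positions, hw1]
      congr 1
      ext x
      simp only [mem_filter, mem_range]
      constructor
      · rintro ⟨h4, h5⟩
        refine ⟨⟨h4, by rw [h5]; simp, by rw [hx1 i hi.1 x h5]; exact hi.2⟩, ?_⟩
        rw [List.getD_eq_getElem?_getD, h5]; simp
      · rintro ⟨⟨h4, h5, h6⟩, h7⟩
        refine ⟨h4, ?_⟩
        rw [List.getElem?_eq_getElem (by omega)] at h5 ⊢
        rw [List.getD_eq_getElem _ _ (by omega)] at h7
        have h8 : w[x] ≠ 0 := fun h9 => h5 (by rw [h9])
        congr 1
        omega
    rw [sum_congr rfl h2, ← card_eq_sum_card_fiberwise]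
    · have h3 : ((range D).filter (fun x => w[x]? ≠ some 0 ∧ β x = j)).card =
          ((range D).filter (fun u => u % K ≠ 0 ∧ u / K = j)).card := by
        have hinj : Set.InjOn φ (range D : Set ℕ) := by
          intro a ha b hb hab
          rw [coe_range, Set.mem_Iio] at ha hb
          simp only [hφ] at hab
          have h4 := Nat.ModEq.add_right_cancel' (D - p) hab
          unfold Nat.ModEq at h4
          rwa [Nat.mod_eq_of_lt ha, Nat.mod_eq_of_lt hb] at h4
        have himg : (range D).image φ = range D := by
          refine eq_of_subset_of_card_le ?_ ?_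
          · intro u hu
            obtain ⟨x, _, rfl⟩ := mem_image.1 hu
            exact mem_range.2 (Nat.mod_lt _ hD0)
          · rw [card_image_of_injOn hinj]
        have h4 : ((range D).filter (fun u => u % K ≠ 0 ∧ u / K = j)).card =
            (((range D).image φ).filter (fun u => u % K ≠ 0 ∧ u / K = j)).card := by rw [himg]
        rw [h4, filter_image, card_image_of_injOn]
        · congr 1
          refine filter_congr fun x hx => ?_
          rw [Ne, ← hφ0 x (mem_range.1 hx)]
        · intro a ha b hb hab
          rw [mem_coe, mem_filter] at ha hb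
          exact hinj (mem_coe.2 ha.1) (mem_coe.2 hb.1) hab
      rw [h3, hDd, card_bins M K j hj hK]
      omega
    · intro x hx
      rw [mem_coe, mem_filter, mem_range] at hx
      obtain ⟨h4, h5, h6⟩ := hx
      rw [List.getElem?_eq_getElem (by omega)] at h5
      have h8 : w[x] ≠ 0 := fun h9 => h5 (by rw [h9])
      have h9 : w[x] < L.length + 1 := by
        rw [← hfl]; exact hw2 _ (List.getElem_mem _)
      rw [mem_coe, mem_filter, mem_range]
      change w.getD x 0 - 1 < L.length ∧ β (x0 (w.getD x 0 - 1)) = j
      rw [List.getD_eq_getElem _ _ (show x < w.length by omega)]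
      have h10 : w[x]? = some (w[x] - 1 + 1) := by
        rw [List.getElem?_eq_getElem (by omega)]
        congr 1
        omega
      refine ⟨by omega, ?_⟩
      rw [← hx1 (w[x] - 1) (by omega) x h10]
      exact h6

end Pool.Agent.X245.FS
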