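import Pool.Agent.X245.FS.Num
import Pool.Agent.X245.FS.Build
import Pool.Agent.X245.FS.Word
import Pool.Agent.X245.Util
import Pool.Agent.H557R2.Tri.Red

/-!
# FEAS is NP-hard
-/

namespace Pool.Agent.X245.FS

open Pool.Agent.NPC Pool.Agent.NPC.H632 Pool.Agent.H557R2.Tri

set_option autoImplicit false

/-- the capped `q` -/
def qq (I : List (ℕ × ℕ × ℕ) × ℕ) : ℕ := min I.2 I.1.length

/-- the items -/
def items (I : List (ℕ × ℕ × ℕ) × ℕ) : List ℕ :=
  (EE I.1 (qq I)).map fun e => min (lenE I.1.length (qq I) e) (BB I.1.length (qq I))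

/-- the reduction -/
def red (I : List (ℕ × ℕ × ℕ) × ℕ) : List (List ℕ) :=
  finst (items I) (3 * I.1.length) (BB I.1.length (qq I))

theorem q_le {S : List (ℕ × ℕ × ℕ)} {q : ℕ} (h : Pr S q) : q ≤ S.length := by
  have h1 : Finset.range (3 * q) ⊆ (S.flatMap el).toFinset := by
    intro e he
    obtain ⟨t, ht, het⟩ := h.occ e (Finset.mem_range.1 he)
    exact List.mem_toFinset.2 (List.mem_flatMap.2 ⟨t, ht, het⟩)
  have h2 := Finset.card_le_card h1
  rw [Finset.card_range] at h2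
  have h3 := List.toFinset_card_le (S.flatMap el)
  rw [length_flatMap_el] at h3
  omega

theorem lenE_le {S : List (ℕ × ℕ × ℕ)} {q : ℕ} (h : Pr S q) {e : Elt} (he : e ∈ EE S q) :
    0 < lenE S.length q e ∧ lenE S.length q e ≤ BB S.length q := by
  have h1 := gE_le h he
  unfold lenE BB
  rcases cls h he with h2 | h2 | h2 <;> rw [h2] <;> simp [wt] <;> omega

theorem red_iff {I : List (ℕ × ℕ × ℕ) × ℕ} (h : Pr I.1 I.2) : X3C I ↔ FEAS (red I) := by
  obtain ⟨S, q⟩ := I
  simp only at h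
  have hq : qq (S, q) = q := by unfold qq; exact min_eq_left (q_le h)
  have hitems : items (S, q) = (EE S q).map (lenE S.length q) := by
    unfold items
    rw [hq]
    refine List.map_congr_left fun e he => ?_
    exact min_eq_left (lenE_le h he).2
  unfold red
  rw [hitems, hq]
  have hm : 0 < 3 * S.length := by
    have : 0 < S.length := List.length_pos_iff.2 h.ne
    omega
  have hpos : ∀ a ∈ (EE S q).map (lenE S.length q), 0 < a := by
    intro a ha
    obtain ⟨e, he, rfl⟩ := List.mem_map.1 ha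
    exact (lenE_le h he).1
  rw [← pack_iff h]
  constructor
  · exact feas_of_pack _ _ _ hm hpos
  · intro hf
    refine pack_of_feas _ _ _ hm hpos ?_ hf
    have h1 := (hf.2.1 (List.replicate (3 * S.length) (BB S.length q + 1))
      (by unfold finst; simp)).2.2.2
    rw [← h1, List.sum_replicate, smul_eq_mul]

theorem uPoly_qq : UPoly qq := by
  refine UPoly.of_le (n := fun I : List (ℕ × ℕ × ℕ) × ℕ => I.1.length) ?_
    (UPoly.length (NPC.Poly.fst NPC.Poly.id)) (fun I => min_le_right _ _)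
  unfold qq
  fun_prop

theorem uPoly_len : UPoly (fun I : List (ℕ × ℕ × ℕ) × ℕ => I.1.length) :=
  UPoly.length (NPC.Poly.fst NPC.Poly.id)

theorem uPoly_Cn : UPoly (fun I : List (ℕ × ℕ × ℕ) × ℕ => Cn I.1.length (qq I)) := by
  unfold Cn
  exact (((UPoly.const 384).mul (uPoly_qq.add (UPoly.const 1))).mul
    (uPoly_len.add (UPoly.const 2))).add (UPoly.const 1)

theorem uPoly_BB : UPoly (fun I : List (ℕ × ℕ × ℕ) × ℕ => BB I.1.length (qq I)) := by
  unfold BB
  exact ((((UPoly.const 16).mul uPoly_Cn).add (UPoly.const 16)).mul (UPoly.const 67)).add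
    ((UPoly.const 3).mul uPoly_Cn)

attribute [local fun_prop] Poly.iadd Poly.isub Poly.imul Poly.ineg Poly.natAbs

theorem poly_items : NPC.Poly items := by
  have hqq : NPC.Poly qq := uPoly_qq.toPoly
  have hEE : NPC.Poly (fun I : List (ℕ × ℕ × ℕ) × ℕ => EE I.1 (qq I)) :=
    poly_EE.comp (f := fun I : List (ℕ × ℕ × ℕ) × ℕ => (I.1, qq I))
      (NPC.Poly.pair (NPC.Poly.fst NPC.Poly.id) hqq)
  have hB : NPC.Poly (fun I : List (ℕ × ℕ × ℕ) × ℕ => BB I.1.length (qq I)) := uPoly_BB.toPoly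
  have hC : NPC.Poly (fun I : List (ℕ × ℕ × ℕ) × ℕ => Cn I.1.length (qq I)) := uPoly_Cn.toPoly
  unfold items
  refine NPC.Poly.map (l := fun I : List (ℕ × ℕ × ℕ) × ℕ => EE I.1 (qq I))
    (F := fun I e => min (lenE I.1.length (qq I) e) (BB I.1.length (qq I))) hEE ?_
  have hR : NPC.Poly (fun p : (List (ℕ × ℕ × ℕ) × ℕ) × Elt => RR p.1.1.length) :=
    poly_RR (by fun_prop)
  have hC' : NPC.Poly (fun p : (List (ℕ × ℕ × ℕ) × ℕ) × Elt => Cn p.1.1.length (qq p.1)) :=
    hC.comp (NPC.Poly.fst NPC.Poly.id)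
  have hB' : NPC.Poly (fun p : (List (ℕ × ℕ × ℕ) × ℕ) × Elt => BB p.1.1.length (qq p.1)) :=
    hB.comp (NPC.Poly.fst NPC.Poly.id)
  unfold lenE gE wt
  fun_prop

theorem poly_red : NPC.Poly red := by
  have hM : UPoly (fun I : List (ℕ × ℕ × ℕ) × ℕ => 3 * I.1.length) :=
    (UPoly.const 3).mul uPoly_len
  have hB : NPC.Poly (fun I : List (ℕ × ℕ × ℕ) × ℕ => BB I.1.length (qq I)) := uPoly_BB.toPoly
  have h1 : NPC.Poly (fun I : List (ℕ × ℕ × ℕ) × ℕ =>
      List.replicate (3 * I.1.length) (BB I.1.length (qq I) + 1)) := by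
    refine (NPC.Poly.map (F := fun (I : List (ℕ × ℕ × ℕ) × ℕ) (_ : Unit) =>
      BB I.1.length (qq I) + 1) hM (NPC.Poly.add (hB.comp (NPC.Poly.fst NPC.Poly.id))
        (NPC.Poly.const 1))).congr fun I => ?_
    rw [List.map_replicate]
  have h2 : NPC.Poly (fun I : List (ℕ × ℕ × ℕ) × ℕ => (items I).map fun a =>
      (3 * I.1.length * (BB I.1.length (qq I) + 1) - a + 1) :: List.replicate (a - 1) 1) := by
    have hu : UPoly (fun p : (List (ℕ × ℕ × ℕ) × ℕ) × ℕ =>
        min (p.2 - 1) (BB p.1.1.length (qq p.1))) := by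
      refine UPoly.of_le (n := fun p : (List (ℕ × ℕ × ℕ) × ℕ) × ℕ =>
        BB p.1.1.length (qq p.1)) ?_ (uPoly_BB.comp (NPC.Poly.fst NPC.Poly.id))
        (fun p => min_le_right _ _)
      have hB' : NPC.Poly (fun p : (List (ℕ × ℕ × ℕ) × ℕ) × ℕ => BB p.1.1.length (qq p.1)) :=
        hB.comp (NPC.Poly.fst NPC.Poly.id)
      fun_prop
    refine (NPC.Poly.map (l := items) (F := fun (I : List (ℕ × ℕ × ℕ) × ℕ) a =>
      (3 * I.1.length * (BB I.1.length (qq I) + 1) - a + 1) ::
        (List.replicate (min (a - 1) (BB I.1.length (qq I))) ()).map (fun _ => 1))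
      poly_items ?_).congr fun I => ?_
    · have hB' : NPC.Poly (fun p : (List (ℕ × ℕ × ℕ) × ℕ) × ℕ => BB p.1.1.length (qq p.1)) :=
        hB.comp (NPC.Poly.fst NPC.Poly.id)
      refine NPC.Poly.cons (by fun_prop) ?_
      exact NPC.Poly.map (F := fun (_ : (List (ℕ × ℕ × ℕ) × ℕ) × ℕ) (_ : Unit) => 1) hu
        (NPC.Poly.const 1)
    · refine List.map_congr_left fun a ha => ?_
      rw [List.map_replicate]
      have : a ≤ BB I.1.length (qq I) := by
        unfold items at ha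
        obtain ⟨e, _, rfl⟩ := List.mem_map.1 ha
        exact min_le_right _ _
      rw [min_eq_left (by omega)]
  exact NPC.Poly.cons h1 h2

theorem hardI_FEAS : HardI FEAS :=
  (hardPr_X3Cr.trans poly_red (Pr' := fun _ => True) (fun _ _ => trivial)
    (fun _ h => red_iff h)).toHardI

end Pool.Agent.X245.FS
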