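import Pool.Agent.X245.FS.Defs
import Pool.Agent.H557R2.Tri.Main

/-!
# Exact cover and exact bin packing with small numbers
-/

namespace Pool.Agent.X245.FS

open Pool.Agent.NPC Pool.Agent.NPC.H632 Pool.Agent.H557R2.Tri

set_option autoImplicit false

/-- shift -/
def Cn (m q : ℕ) : ℕ := 384 * (q + 1) * (m + 2) + 1

/-- weight of a class -/
def wt (c : ℕ) : ℕ := if c = 0 then 21 else if c = 1 then 22 else 24

/-- the small part -/
def gE (m q : ℕ) (e : Elt) : ℕ := (e.2 + RR m * (Cn m q : ℤ)).natAbs / (4 * ((m + 1) * (m + 1)))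

/-- the number of an element -/
def lenE (m q : ℕ) (e : Elt) : ℕ := gE m q e + (16 * Cn m q + 16) * wt e.1

/-- the bin size -/
def BB (m q : ℕ) : ℕ := (16 * Cn m q + 16) * 67 + 3 * Cn m q

theorem Cn_cast (m q : ℕ) : (Cn m q : ℤ) = KK q * (m + 2) + 1 := by
  unfold Cn KK; push_cast; ring

theorem HH_eq (m q : ℕ) : HH m q = RR m * (Cn m q : ℤ) := by
  unfold HH; rw [Cn_cast]

variable {S : List (ℕ × ℕ × ℕ)} {q : ℕ}

theorem gE_eq (h : Pr S q) {e : Elt} (he : e ∈ EE S q) :
    (gE S.length q e : ℤ) = Cn S.length q + mn S.length e := by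
  have h1 := h.abs_le he
  rw [HH_eq, abs_le] at h1
  have h2 : 0 ≤ e.2 + RR S.length * (Cn S.length q : ℤ) := by linarith
  have hR := RR_pos S.length
  unfold gE mn
  rw [Int.natCast_div]
  have h3 : ((4 * ((S.length + 1) * (S.length + 1)) : ℕ) : ℤ) = RR S.length := by
    unfold RR; push_cast; ring
  rw [h3, Int.natCast_natAbs, abs_of_nonneg h2, Int.add_mul_ediv_left _ _ (by omega)]
  ring

theorem gE_le (h : Pr S q) {e : Elt} (he : e ∈ EE S q) : gE S.length q e ≤ 2 * Cn S.length q := by
  have h1 := h.abs_le he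
  rw [HH_eq, abs_le] at h1
  have h2 := gE_eq h he
  have hR := RR_pos S.length
  have h3 : mn S.length e ≤ Cn S.length q := by
    unfold mn
    have : e.2 / RR S.length ≤ (RR S.length * (Cn S.length q : ℤ)) / RR S.length :=
      Int.ediv_le_ediv (by omega) h1.2
    rwa [Int.mul_ediv_cancel_left _ (by omega)] at this
  omega

theorem cls (h : Pr S q) {e : Elt} (he : e ∈ EE S q) : e.1 = 0 ∨ e.1 = 1 ∨ e.1 = 2 := by
  have := (h.small he).2
  omega

theorem wt_ge (c : ℕ) : 21 ≤ wt c := by unfold wt; split_ifs <;> omega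

theorem bin_of (h : Pr S q) (l : List Elt) (hl : ∀ e ∈ l, e ∈ EE S q)
    (hs : (l.map (lenE S.length q)).sum = BB S.length q) :
    ∃ t : Elt × Elt × Elt, el t = l ∧ Trans t ∧ ms S.length t = 0 := by
  unfold BB at hs
  have hge : ∀ e, (16 * Cn S.length q + 16) * 21 ≤ lenE S.length q e := by
    intro e
    unfold lenE
    have := Nat.mul_le_mul_left (16 * Cn S.length q + 16) (wt_ge e.1)
    omega
  match l, hl, hs with
  | [], _, hs => simp at hs; omega
  | [a], hl, hs =>
    exfalso
    have ha := hl a (by simp)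
    have g1 := gE_le h ha
    simp only [List.map_cons, List.map_nil, List.sum_cons, List.sum_nil, lenE] at hs
    rcases cls h ha with h1 | h1 | h1 <;> rw [h1] at hs <;> simp [wt] at hs <;> omega
  | [a, b], hl, hs =>
    exfalso
    have ha := hl a (by simp)
    have hb := hl b (by simp)
    have g1 := gE_le h ha
    have g2 := gE_le h hb
    simp only [List.map_cons, List.map_nil, List.sum_cons, List.sum_nil, lenE] at hs
    rcases cls h ha with h1 | h1 | h1 <;> rcases cls h hb with h2 | h2 | h2 <;>
      rw [h1, h2] at hs <;> simp [wt] at hs <;> omega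
  | [a, b, c], hl, hs =>
    have ha := hl a (by simp)
    have hb := hl b (by simp)
    have hc := hl c (by simp)
    have g1 := gE_le h ha
    have g2 := gE_le h hb
    have g3 := gE_le h hc
    have f1 := gE_eq h ha
    have f2 := gE_eq h hb
    have f3 := gE_eq h hc
    refine ⟨(a, b, c), rfl, ?_, ?_⟩
    · unfold H557R2.Tri.Trans
      simp only [List.map_cons, List.map_nil, List.sum_cons, List.sum_nil, lenE] at hs
      rcases cls h ha with h1 | h1 | h1 <;> rcases cls h hb with h2 | h2 | h2 <;>
        rcases cls h hc with h3 | h3 | h3 <;> simp only [h1, h2, h3] at hs ⊢ <;>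
        simp [wt] at hs ⊢ <;> omega
    · unfold ms
      simp only [List.map_cons, List.map_nil, List.sum_cons, List.sum_nil, lenE] at hs
      have hg : gE S.length q a + gE S.length q b + gE S.length q c = 3 * Cn S.length q := by
        rcases cls h ha with h1 | h1 | h1 <;> rcases cls h hb with h2 | h2 | h2 <;>
          rcases cls h hc with h3 | h3 | h3 <;> simp only [h1, h2, h3] at hs <;>
          simp [wt] at hs <;> omega
      simp only
      omega
  | a :: b :: c :: d :: l, hl, hs =>
    exfalso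
    simp only [List.map_cons, List.sum_cons] at hs
    have := hge a
    have := hge b
    have := hge c
    have := hge d
    omega

theorem bin_len (h : Pr S q) {t : Elt × Elt × Elt} (ht : ∀ e ∈ el t, e ∈ EE S q) (h1 : H557R2.Tri.Trans t)
    (h2 : ms S.length t = 0) : ((el t).map (lenE S.length q)).sum = BB S.length q := by
  obtain ⟨a, b, c⟩ := t
  have ha := ht a (by simp [el])
  have hb := ht b (by simp [el])
  have hc := ht c (by simp [el])
  have f1 := gE_eq h ha
  have f2 := gE_eq h hb
  have f3 := gE_eq h hc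
  unfold ms at h2
  simp only at h2
  have hg : gE S.length q a + gE S.length q b + gE S.length q c = 3 * Cn S.length q := by omega
  unfold el BB
  simp only [List.map_cons, List.map_nil, List.sum_cons, List.sum_nil, lenE]
  rcases h1 with ⟨h3, h4, h5⟩ | ⟨h3, h4, h5⟩ | ⟨h3, h4, h5⟩ | ⟨h3, h4, h5⟩ | ⟨h3, h4, h5⟩ |
    ⟨h3, h4, h5⟩ <;> simp only at h3 h4 h5 <;> rw [h3, h4, h5] <;> simp [wt] <;> omega

theorem pack_iff (h : Pr S q) :
    Pack ((EE S q).map (lenE S.length q)) (3 * S.length) (BB S.length q) ↔ X3C (S, q) := by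
  rw [h.x3c_iff]
  constructor
  · rintro ⟨G, hG1, hG2, hG3⟩
    obtain ⟨H, hH1, hH2⟩ := lift _ G _ hG2
    have hmem : ∀ l ∈ H, ∀ e ∈ l, e ∈ EE S q := fun l hl e he =>
      hH1.mem_iff.1 (List.mem_flatten.2 ⟨l, hl, he⟩)
    have hex : ∀ l ∈ H, ∃ t : Elt × Elt × Elt, el t = l ∧ Trans t ∧ ms S.length t = 0 := by
      intro l hl
      refine bin_of h l (hmem l hl) ?_
      exact hG3 _ (by rw [← hH2]; exact List.mem_map_of_mem hl)
    choose! t ht1 ht2 ht3 using hex
    refine ⟨H.map t, ?_, ?_⟩
    · have e : (H.map t).flatMap el = H.flatten := by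
        rw [List.flatMap_def, List.map_map]
        congr 1
        conv_rhs => rw [← List.map_id H]
        exact List.map_congr_left fun l hl => ht1 l hl
      rw [e]; exact hH1
    · intro u hu
      obtain ⟨l, hl, rfl⟩ := List.mem_map.1 hu
      exact ⟨ht2 l hl, ht3 l hl⟩
  · rintro ⟨π, hp, hπ⟩
    refine ⟨π.map (fun t => (el t).map (lenE S.length q)), ?_, ?_, ?_⟩
    · rw [List.length_map]; exact len_eq hp
    · have e : (π.map (fun t => (el t).map (lenE S.length q))).flatten =
          (π.flatMap el).map (lenE S.length q) := by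
        rw [List.map_flatMap, List.flatMap_def]
      rw [e]; exact hp.map _
    · intro g hg
      obtain ⟨t, ht, rfl⟩ := List.mem_map.1 hg
      refine bin_len h (fun e he => hp.mem_iff.1 (List.mem_flatMap.2 ⟨t, ht, he⟩)) (hπ t ht).1
        (hπ t ht).2

end Pool.Agent.X245.FS
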